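import Mathlib
import Pool.Agent.LeoK.CountStmts

/-!
# Squad leok: module PIK
-/

set_option autoImplicit false

open NumberField IsDedekindDomain Module

namespace Pool.Agent.LeoK.H65

variable {k : Type} [Field k] [NumberField k]

theorem absNorm_nat (N : ℕ) : Ideal.absNorm (Ideal.span {(N : 𝓞 k)}) = N ^ finrank ℚ k := by
  rw [Ideal.absNorm_span_singleton]
  have h := Algebra.norm_algebraMap (R := ℤ) (S := 𝓞 k) (N : ℤ)
  rw [RingOfIntegers.rank] at h
  have h2 : algebraMap ℤ (𝓞 k) (N : ℤ) = (N : 𝓞 k) := by simp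
  rw [h2] at h
  rw [h, Int.natAbs_pow, Int.natAbs_natCast]

theorem two_le_norm (p : HeightOneSpectrum (𝓞 k)) : 2 ≤ Ideal.absNorm p.asIdeal := by
  have h0 : Ideal.absNorm p.asIdeal ≠ 0 := by
    rw [Ne, Ideal.absNorm_eq_zero_iff]
    exact p.ne_bot
  have h1 : Ideal.absNorm p.asIdeal ≠ 1 := by
    rw [Ne, Ideal.absNorm_eq_one_iff]
    exact p.isPrime.ne_top
  omega

/-- there are at most `[k : ℚ]` primes of given norm -/
theorem card_norm (Q : Finset (HeightOneSpectrum (𝓞 k))) (N : ℕ)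
    (hQ : ∀ p ∈ Q, Ideal.absNorm p.asIdeal = N) : Q.card ≤ finrank ℚ k := by
  classical
  rcases Q.eq_empty_or_nonempty with h0 | ⟨p₀, hp₀⟩
  · rw [h0, Finset.card_empty]
    exact bot_le
  have hN : 2 ≤ N := by
    rw [← hQ p₀ hp₀]
    exact two_le_norm p₀
  have h1 : ∏ p ∈ Q, p.asIdeal ∣ Ideal.span {(N : 𝓞 k)} := by
    have h2 : ∏ p ∈ Q, p.asIdeal = ∏ I ∈ Q.image HeightOneSpectrum.asIdeal, I := by
      rw [Finset.prod_image]
      intro p _ q _ h
      exact HeightOneSpectrum.ext h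
    rw [h2]
    refine Finset.prod_primes_dvd _ ?_ ?_
    · intro I hI
      obtain ⟨p, hp, rfl⟩ := Finset.mem_image.1 hI
      exact p.prime
    · intro I hI
      obtain ⟨p, hp, rfl⟩ := Finset.mem_image.1 hI
      rw [Ideal.dvd_span_singleton, ← hQ p hp]
      exact Ideal.absNorm_mem _
  have h3 := map_dvd Ideal.absNorm h1
  rw [map_prod, absNorm_nat, Finset.prod_congr rfl hQ, Finset.prod_const] at h3
  have h4 := Nat.le_of_dvd (by positivity) h3
  exact (Nat.pow_le_pow_iff_right (by omega)).1 h4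

theorem np_two (p : HeightOneSpectrum (𝓞 k)) : (2 : ℝ) ≤ np p := by
  unfold np
  exact_mod_cast two_le_norm p

theorem summ : Summable (fun p : HeightOneSpectrum (𝓞 k) => 1 / np p ^ 2) := by
  classical
  have hs : Summable (fun N : ℕ => 1 / (N : ℝ) ^ 2) :=
    Real.summable_one_div_nat_pow.2 (by norm_num)
  refine summable_of_sum_le (c := (finrank ℚ k : ℝ) * ∑' N : ℕ, 1 / (N : ℝ) ^ 2) ?_ ?_
  · intro p
    change 0 ≤ 1 / np p ^ 2
    positivity
  · intro Q
    rw [← Finset.sum_fiberwise_of_maps_to (t := Q.image fun p => Ideal.absNorm p.asIdeal)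
      (fun p hp => Finset.mem_image_of_mem _ hp)]
    calc ∑ N ∈ Q.image (fun p => Ideal.absNorm p.asIdeal),
          ∑ p ∈ Q with Ideal.absNorm p.asIdeal = N, 1 / np p ^ 2
        ≤ ∑ N ∈ Q.image (fun p => Ideal.absNorm p.asIdeal),
          (finrank ℚ k : ℝ) * (1 / (N : ℝ) ^ 2) := by
          refine Finset.sum_le_sum fun N _ => ?_
          have h1 : ∀ p ∈ Q.filter (fun p => Ideal.absNorm p.asIdeal = N),
              1 / np p ^ 2 = 1 / (N : ℝ) ^ 2 := by
            intro p hp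
            unfold np
            rw [(Finset.mem_filter.1 hp).2]
          rw [Finset.sum_congr rfl h1, Finset.sum_const, nsmul_eq_mul]
          refine mul_le_mul_of_nonneg_right ?_ (by positivity)
          exact_mod_cast card_norm _ N fun p hp => (Finset.mem_filter.1 hp).2
      _ = (finrank ℚ k : ℝ) * ∑ N ∈ Q.image (fun p => Ideal.absNorm p.asIdeal), 1 / (N : ℝ) ^ 2 := by
          rw [Finset.mul_sum]
      _ ≤ _ := by
          refine mul_le_mul_of_nonneg_left ?_ (by positivity)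
          exact hs.sum_le_tsum _ fun N _ => by positivity

theorem one_sub_ge {x : ℝ} (h0 : 0 ≤ x) (h1 : x ≤ 1 / 2) : Real.exp (-(2 * x)) ≤ 1 - x := by
  have h2 : 0 < 1 + 2 * x := by linarith
  have h3 : 1 + 2 * x ≤ Real.exp (2 * x) := by
    have := Real.add_one_le_exp (2 * x)
    linarith
  rw [Real.exp_neg]
  calc (Real.exp (2 * x))⁻¹ ≤ (1 + 2 * x)⁻¹ := inv_anti₀ h2 h3
    _ ≤ 1 - x := by
      rw [inv_le_iff_one_le_mul₀ h2]
      nlinarith

theorem ap_bound (p : HeightOneSpectrum (𝓞 k)) : 0 ≤ 1 / np p ^ 2 ∧ 1 / np p ^ 2 ≤ 1 / 4 := by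
  have h := np_two p
  refine ⟨by positivity, ?_⟩
  apply one_div_le_one_div_of_le (by norm_num)
  nlinarith

/-- infimum of a decreasing function of finite sets -/
theorem inf_prod {ι : Type*} (g : ι → ℝ) (h0 : ∀ i, 0 ≤ g i) (h1 : ∀ i, g i ≤ 1) {c : ℝ}
    (hc : 0 < c) (hb : ∀ Q : Finset ι, c ≤ ∏ i ∈ Q, g i) :
    0 < (⨅ Q : Finset ι, ∏ i ∈ Q, g i) ∧
      (∀ Q : Finset ι, (⨅ Q : Finset ι, ∏ i ∈ Q, g i) ≤ ∏ i ∈ Q, g i) ∧
      ∀ ε : ℝ, 0 < ε → ∃ Q₀ : Finset ι, ∀ Q, Q₀ ⊆ Q →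
        ∏ i ∈ Q, g i ≤ (⨅ Q : Finset ι, ∏ i ∈ Q, g i) + ε := by
  classical
  have hbdd : BddBelow (Set.range fun Q : Finset ι => ∏ i ∈ Q, g i) := by
    refine ⟨c, ?_⟩
    rintro _ ⟨Q, rfl⟩
    exact hb Q
  refine ⟨lt_of_lt_of_le hc (le_ciInf hb), fun Q => ciInf_le hbdd Q, ?_⟩
  intro ε hε
  obtain ⟨Q₀, hQ₀⟩ := exists_lt_of_ciInf_lt
    (show (⨅ Q : Finset ι, ∏ i ∈ Q, g i) < (⨅ Q : Finset ι, ∏ i ∈ Q, g i) + ε by linarith)
  refine ⟨Q₀, fun Q hQ => le_trans ?_ hQ₀.le⟩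
  rw [← Finset.prod_sdiff hQ]
  calc (∏ i ∈ Q \ Q₀, g i) * ∏ i ∈ Q₀, g i ≤ 1 * ∏ i ∈ Q₀, g i :=
        mul_le_mul_of_nonneg_right (Finset.prod_le_one (fun i _ => h0 i) fun i _ => h1 i)
          (Finset.prod_nonneg fun i _ => h0 i)
    _ = _ := one_mul _

theorem six_finite : {p : HeightOneSpectrum (𝓞 k) | (6 : 𝓞 k) ∈ p.asIdeal}.Finite := by
  have h6 : Ideal.span {(6 : 𝓞 k)} ≠ 0 := by
    rw [Ne, Ideal.zero_eq_bot, Ideal.span_singleton_eq_bot]
    norm_num
  refine (Ideal.finite_factors h6).subset ?_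
  intro p hp
  exact (Ideal.dvd_span_singleton).2 hp

theorem prod_ge (Q : Finset (HeightOneSpectrum (𝓞 k))) :
    Real.exp (-(2 * ∑' p : HeightOneSpectrum (𝓞 k), 1 / np p ^ 2)) ≤
      ∏ p ∈ Q, (1 - 1 / np p ^ 2) := by
  have h1 : ∑ p ∈ Q, 1 / np p ^ 2 ≤ ∑' p : HeightOneSpectrum (𝓞 k), 1 / np p ^ 2 :=
    summ.sum_le_tsum _ fun p _ => (ap_bound p).1
  calc Real.exp (-(2 * ∑' p : HeightOneSpectrum (𝓞 k), 1 / np p ^ 2))
      ≤ Real.exp (∑ p ∈ Q, -(2 * (1 / np p ^ 2))) := by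
        apply Real.exp_le_exp.2
        rw [Finset.sum_neg_distrib, ← Finset.mul_sum]
        linarith
    _ = ∏ p ∈ Q, Real.exp (-(2 * (1 / np p ^ 2))) := Real.exp_sum _ _
    _ ≤ _ := Finset.prod_le_prod (fun p _ => (Real.exp_pos _).le) fun p _ =>
        one_sub_ge (ap_bound p).1 (by linarith [(ap_bound p).2])

theorem dm_bound (p : HeightOneSpectrum (𝓞 k)) : 0 ≤ dm p ∧ dm p ≤ 1 ∧ 1 / 4 ≤ dm p ∧
    ((6 : 𝓞 k) ∉ p.asIdeal → dm p = 1 - 1 / np p ^ 2) := by
  have h2 := np_two p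
  have h3 : 1 / np p ≤ 1 / 2 := one_div_le_one_div_of_le (by norm_num) h2
  have h4 : 0 ≤ 1 / np p := by positivity
  obtain ⟨h5, h6⟩ := ap_bound p
  unfold dm
  refine ⟨?_, ?_, ?_, ?_⟩
  · split_ifs <;> linarith
  · split_ifs <;> linarith
  · split_ifs <;> linarith
  · intro h
    have h7 : (2 : 𝓞 k) ∉ p.asIdeal := by
      intro h8
      apply h
      have := p.asIdeal.mul_mem_left 3 h8
      norm_num at this
      exact this
    have h8 : (3 : 𝓞 k) ∉ p.asIdeal := by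
      intro h8
      apply h
      have := p.asIdeal.mul_mem_left 2 h8
      norm_num at this
      exact this
    rw [if_neg h7, if_neg h8]

/-- PIK -/
theorem pik : PikStmt := by
  classical
  intro k _ _
  obtain ⟨c, hc⟩ : ∃ c, c = Real.exp (-(2 * ∑' p : HeightOneSpectrum (𝓞 k), 1 / np p ^ 2)) :=
    ⟨_, rfl⟩
  have hc0 : 0 < c := by rw [hc]; exact Real.exp_pos _
  have hP := inf_prod (fun p : HeightOneSpectrum (𝓞 k) => 1 - 1 / np p ^ 2)
    (fun p => by linarith [(ap_bound p).2]) (fun p => by linarith [(ap_bound p).1]) hc0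
    (fun Q => by rw [hc]; exact prod_ge Q)
  have hfin := six_finite (k := k)
  have hD := inf_prod (fun p : HeightOneSpectrum (𝓞 k) => dm p) (fun p => (dm_bound p).1)
    (fun p => (dm_bound p).2.1) (c := c * (1 / 4) ^ hfin.toFinset.card) (by positivity) (by
      intro Q
      have h1 : ∀ p ∈ Q, (1 - 1 / np p ^ 2) * (if (6 : 𝓞 k) ∈ p.asIdeal then 1 / 4 else 1) ≤
          dm p := by
        intro p _
        obtain ⟨h2, h3⟩ := ap_bound p
        obtain ⟨-, -, h4, h5⟩ := dm_bound p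
        split_ifs with h
        · linarith
        · rw [h5 h, mul_one]
      calc c * (1 / 4) ^ hfin.toFinset.card
          ≤ (∏ p ∈ Q, (1 - 1 / np p ^ 2)) *
            ∏ p ∈ Q, (if (6 : 𝓞 k) ∈ p.asIdeal then (1 / 4 : ℝ) else 1) := by
            refine mul_le_mul ?_ ?_ (by positivity) ?_
            · rw [hc]
              exact prod_ge Q
            · rw [Finset.prod_ite, Finset.prod_const_one, mul_one, Finset.prod_const]
              refine pow_le_pow_of_le_one (by norm_num) (by norm_num) ?_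
              refine Finset.card_le_card ?_
              intro p hp
              rw [Set.Finite.mem_toFinset]
              exact (Finset.mem_filter.1 hp).2
            · exact Finset.prod_nonneg fun p _ => by linarith [(ap_bound p).2]
        _ = ∏ p ∈ Q, (1 - 1 / np p ^ 2) * (if (6 : 𝓞 k) ∈ p.asIdeal then (1 / 4 : ℝ) else 1) := by
            rw [Finset.prod_mul_distrib]
        _ ≤ ∏ p ∈ Q, dm p := by
            refine Finset.prod_le_prod ?_ h1
            intro p _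
            have h2 := (ap_bound p).2
            refine mul_nonneg (by linarith) ?_
            split_ifs <;> norm_num)
  refine ⟨summ, hP.1, hD.1, hfin, fun Q => ⟨hP.2.1 Q, hD.2.1 Q⟩, ?_⟩
  intro ε hε
  obtain ⟨Q₁, h1⟩ := hP.2.2 ε hε
  obtain ⟨Q₂, h2⟩ := hD.2.2 ε hε
  refine ⟨Q₁ ∪ Q₂, fun Q hQ => ⟨h1 Q ?_, h2 Q ?_⟩⟩
  · exact Finset.Subset.trans Finset.subset_union_left hQ
  · exact Finset.Subset.trans Finset.subset_union_right hQ

end Pool.Agent.LeoK.H65
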