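import Mathlib
import Pool.Agent.LeoK.UpStmts

/-!
# Squad leok: module LD3
-/

set_option autoImplicit false

open Finset

namespace Pool.Agent.LeoK.H65

section
variable {A : Type} [Field A] [Fintype A]

omit [Field A] in
theorem sum4 (g : Q4 A → ℝ) : ∑ v, g v = ∑ a, ∑ b, ∑ d, ∑ c, g ![a, b, c, d] := by
  let e : (A × A × A × A) ≃ Q4 A :=
    { toFun := fun p => ![p.1, p.2.1, p.2.2.2, p.2.2.1]
      invFun := fun β => (β 0, β 1, β 3, β 2)
      left_inv := fun _ => rfl
      right_inv := fun β => by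
        funext i
        fin_cases i <;> rfl }
  rw [← e.sum_comp, Fintype.sum_prod_type]
  refine Finset.sum_congr rfl fun a _ => ?_
  rw [Fintype.sum_prod_type]
  refine Finset.sum_congr rfl fun b _ => ?_
  rw [Fintype.sum_prod_type]
  rfl

omit [Fintype A] in
theorem two_ne (h3 : (3 : A) = 0) : (2 : A) ≠ 0 := by
  intro h2
  have h1 : (1 : A) = 0 := by linear_combination h3 - h2
  exact one_ne_zero h1

open scoped Classical in
/-- the number of the nonsquares -/
theorem card_nonsq (h3 : (3 : A) = 0) (ind : A → ℝ)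
    (hind : ∀ a, ind a = if IsSquare a then 0 else 1) :
    2 * ∑ a, ind a = Fintype.card A - 1 := by
  classical
  have hch : ringChar A ≠ 2 := by
    intro h
    apply two_ne h3
    have h1 := (ringChar.spec A 2).2 (by rw [h])
    exact_mod_cast h1
  have h1 : ∀ a : A, 2 * ind a = (((quadraticChar A a) ^ 2 - quadraticChar A a : ℤ) : ℝ) := by
    intro a
    rw [hind]
    by_cases ha : IsSquare a
    · rw [if_pos ha]
      by_cases h0 : a = 0
      · rw [h0, quadraticChar_zero]
        norm_num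
      · rw [(quadraticChar_one_iff_isSquare h0).2 ha]
        norm_num
    · rw [if_neg ha, quadraticChar_neg_one_iff_not_isSquare.2 ha]
      norm_num
  have h2 : ∑ a : A, (quadraticChar A a) ^ 2 = (Fintype.card A : ℤ) - 1 := by
    have h4 : ∀ a : A, (quadraticChar A a) ^ 2 = 1 - if a = 0 then 1 else 0 := by
      intro a
      by_cases h0 : a = 0
      · rw [h0, quadraticChar_zero, if_pos rfl]
        norm_num
      · rw [quadraticChar_sq_one h0, if_neg h0]
        norm_num
    rw [Finset.sum_congr rfl fun a _ => h4 a, Finset.sum_sub_distrib, Finset.sum_ite_eq']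
    simp
  rw [Finset.mul_sum, Finset.sum_congr rfl fun a _ => h1 a]
  rw [← Int.cast_sum, Finset.sum_sub_distrib, h2, quadraticChar_sum_zero hch]
  push_cast
  ring

omit [Fintype A] in
theorem cube_inj (h3 : (3 : A) = 0) {x y : A} (h : x ^ 3 = y ^ 3) : x = y := by
  have h1 : (x - y) ^ 3 = 0 := by
    linear_combination h - (x ^ 2 * y - x * y ^ 2) * h3
  exact sub_eq_zero.1 (pow_eq_zero_iff (by norm_num : (3 : ℕ) ≠ 0) |>.1 h1)

/-- LD3 -/
theorem ld3 : Ld3Stmt := by
  classical
  intro A _ _ h3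
  obtain ⟨ind, hind⟩ : ∃ ind : A → ℝ, ∀ a, ind a = if IsSquare a then 0 else 1 :=
    ⟨_, fun _ => rfl⟩
  obtain ⟨q, hq⟩ : ∃ q : ℝ, q = Fintype.card A := ⟨_, rfl⟩
  obtain ⟨T, hT⟩ : ∃ T, T = ∑ a, ind a := ⟨_, rfl⟩
  have hT2 := card_nonsq h3 ind hind
  rw [← hT, ← hq] at hT2
  have hq0 : q ≠ 0 := by
    rw [hq]
    exact_mod_cast Fintype.card_ne_zero
  have h1 : (Nat.card {v : Q4 A // ∀ x : A, x ^ 2 + qM v ≠ 0} : ℝ) =
      ∑ v : Q4 A, ind (-qM v) := by
    rw [Nat.card_eq_fintype_card, Fintype.card_subtype, Finset.card_filter]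
    push_cast
    refine Finset.sum_congr rfl fun v _ => ?_
    rw [hind]
    by_cases h : IsSquare (-qM v)
    · rw [if_pos h, if_neg]
      intro hcon
      obtain ⟨x, hx⟩ := h
      apply hcon x
      linear_combination -hx
    · rw [if_neg h, if_pos]
      intro x hx
      apply h
      exact ⟨x, by linear_combination -hx⟩
  have h2 : ∀ a b c d : A, -qM ![a, b, c, d] = a ^ 2 * d ^ 2 + a * c ^ 3 + b ^ 3 * d := by
    intro a b c d
    simp only [qM, fM, fP, fQ, fR, Matrix.cons_val_zero, Matrix.cons_val_one, Matrix.cons_val]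
    linear_combination (-(b ^ 2 * c ^ 2) + b ^ 3 * d + a * c ^ 3 - 2 * a * b * c * d) * h3
  have hbij : ∀ a b d : A, a ≠ 0 →
      ∑ c, ind (a ^ 2 * d ^ 2 + a * c ^ 3 + b ^ 3 * d) = T := by
    intro a b d ha
    rw [hT]
    refine Function.Bijective.sum_comp (e := fun c => a ^ 2 * d ^ 2 + a * c ^ 3 + b ^ 3 * d) ?_ ind
    refine Finite.injective_iff_bijective.1 ?_
    intro c c' h
    have h4 : a * c ^ 3 = a * c' ^ 3 := by linear_combination h
    exact cube_inj h3 (mul_left_cancel₀ ha h4)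
  have h0 : ind 0 = 0 := by
    rw [hind, if_pos (IsSquare.zero)]
  have hz : ∀ b : A, ∑ d, ∑ c : A, ind (0 ^ 2 * d ^ 2 + 0 * c ^ 3 + b ^ 3 * d) =
      if b = 0 then 0 else q * T := by
    intro b
    have h5 : ∀ d : A, ∑ c : A, ind (0 ^ 2 * d ^ 2 + 0 * c ^ 3 + b ^ 3 * d) =
        q * ind (b ^ 3 * d) := by
      intro d
      have h6 : ∀ c : A, ind (0 ^ 2 * d ^ 2 + 0 * c ^ 3 + b ^ 3 * d) = ind (b ^ 3 * d) := by
        intro c
        congr 1
        ring
      rw [Finset.sum_congr rfl fun c _ => h6 c, Finset.sum_const, Finset.card_univ, nsmul_eq_mul, hq]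
    rw [Finset.sum_congr rfl fun d _ => h5 d, ← Finset.mul_sum]
    by_cases hb : b = 0
    · rw [if_pos hb, hb]
      have h6 : ∀ d : A, ind (0 ^ 3 * d) = 0 := by
        intro d
        rw [zero_pow (by norm_num), zero_mul, h0]
      rw [Finset.sum_congr rfl fun d _ => h6 d]
      simp
    · rw [if_neg hb, hT]
      congr 1
      refine Function.Bijective.sum_comp (e := fun d => b ^ 3 * d) ?_ ind
      refine Finite.injective_iff_bijective.1 ?_
      intro d d' h
      exact mul_left_cancel₀ (pow_ne_zero 3 hb) h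
  have hcount : ∀ x : ℝ, ∑ a : A, (if a = 0 then 0 else x) = (q - 1) * x := by
    intro x
    have h5 : ∀ a : A, (if a = 0 then 0 else x) = x - if a = 0 then x else 0 := by
      intro a
      split_ifs <;> ring
    rw [Finset.sum_congr rfl fun a _ => h5 a, Finset.sum_sub_distrib, Finset.sum_ite_eq']
    simp [hq, Finset.card_univ]
    ring
  have h6 : ∑ v : Q4 A, ind (-qM v) = (q - 1) * (q * (q * T)) + (q - 1) * (q * T) := by
    rw [sum4]
    simp only [h2]
    have h7 : ∀ a : A, ∑ b, ∑ d, ∑ c, ind (a ^ 2 * d ^ 2 + a * c ^ 3 + b ^ 3 * d) =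
        (if a = 0 then 0 else q * (q * T)) + if a = 0 then (q - 1) * (q * T) else 0 := by
      intro a
      by_cases ha : a = 0
      · subst ha
        rw [if_pos rfl, if_pos rfl, Finset.sum_congr rfl fun b _ => hz b, hcount, zero_add]
      · rw [if_neg ha, if_neg ha, add_zero]
        simp only [hbij a _ _ ha]
        rw [Finset.sum_const, Finset.sum_const, Finset.card_univ, nsmul_eq_mul, nsmul_eq_mul, hq]
    rw [Finset.sum_congr rfl fun a _ => h7 a, Finset.sum_add_distrib, hcount, Finset.sum_ite_eq']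
    simp
  rw [h1, h6, ← hq]
  field_simp
  linear_combination ((q - 1) * (q + 1)) * hT2

end

end Pool.Agent.LeoK.H65
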